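import Mathlib

/-!
# A greedy colouring with weights

`E` is a symmetric nonnegative integer matrix with zero diagonal and `w j` are nonnegative weights,
one weight function for each colour `j < m`.  If for every `e` the row sum of `E` plus the sum of
the weights `w j e` over all colours is at most `k * m - 1`, there is a colouring with `m` colours
such that for every `e` the row sum inside the colour class of `e` plus the weight of `e` for its
own colour is at most `k - 1`.
-/

namespace Pool.Agent.Helper33.NMaxQ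

open Finset

variable {F : Type} [DecidableEq F]

lemma exists_classW (E : F → F → ℤ) (hsymm : ∀ e f, E e f = E f e) (h0 : ∀ e, E e e = 0) (k : ℕ)
    (w : F → ℤ) (T : Finset F) :
    ∃ R ⊆ T, (∀ e ∈ R, ∑ f ∈ R, E e f + w e ≤ k - 1) ∧
      (∀ e ∈ T, e ∉ R → (k : ℤ) ≤ ∑ f ∈ R, E e f + w e) := by
  obtain ⟨R, hR, hmin⟩ := Finset.exists_min_image T.powerset
    (fun R => ∑ e ∈ R, ∑ f ∈ R, E e f + 2 * ∑ e ∈ R, w e - (2 * (k : ℤ) - 1) * (R.card : ℤ))
    ⟨∅, by simp⟩
  have hRT := Finset.mem_powerset.1 hR
  have hins : ∀ (S : Finset F) (e : F), e ∉ S →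
      ∑ x ∈ insert e S, ∑ f ∈ insert e S, E x f =
        ∑ x ∈ S, ∑ f ∈ S, E x f + 2 * ∑ f ∈ S, E e f := by
    intro S e he
    rw [Finset.sum_insert he, Finset.sum_insert he, h0, zero_add]
    have h1 : ∑ x ∈ S, ∑ f ∈ insert e S, E x f = ∑ x ∈ S, (E e x + ∑ f ∈ S, E x f) := by
      refine Finset.sum_congr rfl fun x _ => ?_
      rw [Finset.sum_insert he, hsymm x e]
    rw [h1, Finset.sum_add_distrib]
    ring
  refine ⟨R, hRT, ?_, ?_⟩
  · intro e he
    have h := hmin (R.erase e) (Finset.mem_powerset.2 ((Finset.erase_subset _ _).trans hRT))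
    have h1 := hins (R.erase e) e (Finset.notMem_erase e R)
    rw [Finset.insert_erase he] at h1
    have h2 : ∑ f ∈ R.erase e, E e f = ∑ f ∈ R, E e f := by
      rw [← Finset.add_sum_erase R _ he, h0, zero_add]
    have h3 : ((R.erase e).card : ℤ) = R.card - 1 := by
      rw [Finset.card_erase_of_mem he]
      have : 1 ≤ R.card := Finset.card_pos.2 ⟨e, he⟩
      push_cast [Nat.cast_sub this]
      ring
    have h5 : ∑ x ∈ R, w x = w e + ∑ x ∈ R.erase e, w x := (Finset.add_sum_erase R _ he).symm
    rw [h1, h2, h3, h5] at h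
    have h4 : 2 * (∑ f ∈ R, E e f + w e) ≤ 2 * (k : ℤ) - 1 := by
      have : (2 * (k : ℤ) - 1) * ((R.card : ℤ) - 1) = (2 * (k : ℤ) - 1) * (R.card : ℤ) -
        (2 * (k : ℤ) - 1) := by ring
      linarith
    omega
  · intro e heT he
    have h := hmin (insert e R) (Finset.mem_powerset.2 (Finset.insert_subset heT hRT))
    have h1 := hins R e he
    have h3 : ((insert e R).card : ℤ) = R.card + 1 := by
      rw [Finset.card_insert_of_notMem he]
      push_cast
      ring
    rw [h1, h3, Finset.sum_insert he] at h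
    have h4 : 2 * (k : ℤ) - 1 ≤ 2 * (∑ f ∈ R, E e f + w e) := by
      have : (2 * (k : ℤ) - 1) * ((R.card : ℤ) + 1) = (2 * (k : ℤ) - 1) * (R.card : ℤ) +
        (2 * (k : ℤ) - 1) := by ring
      linarith
    omega

lemma exists_colouringW (E : F → F → ℤ) (hsymm : ∀ e f, E e f = E f e) (h0 : ∀ e, E e e = 0)
    (hnn : ∀ e f, 0 ≤ E e f) (k : ℕ) (m : ℕ) : ∀ (w : ℕ → F → ℤ) (T : Finset F),
    (∀ e ∈ T, ∑ f ∈ T, E e f + ∑ j ∈ range m, w j e ≤ k * m - 1) →
    ∃ c : F → ℕ, (∀ e ∈ T, c e < m) ∧
      (∀ e ∈ T, ∑ f ∈ T.filter (fun f => c f = c e), E e f + w (c e) e ≤ k - 1) := by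
  induction m with
  | zero =>
    intro w T hT
    have hemp : T = ∅ := by
      rw [Finset.eq_empty_iff_forall_notMem]
      intro e he
      have h1 := hT e he
      have h2 : 0 ≤ ∑ f ∈ T, E e f := Finset.sum_nonneg fun f _ => hnn e f
      simp at h1
      linarith
    subst hemp
    exact ⟨fun _ => 0, by simp, by simp⟩
  | succ m ih =>
    intro w T hT
    obtain ⟨R, hRT, hR1, hR2⟩ := exists_classW E hsymm h0 k (w 0) T
    have hsplit : ∀ e, ∑ f ∈ T, E e f = ∑ f ∈ T \ R, E e f + ∑ f ∈ R, E e f := fun e =>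
      (Finset.sum_sdiff hRT).symm
    obtain ⟨c, hc1, hc2⟩ := ih (fun j => w (j + 1)) (T \ R) (by
      intro e he
      rw [Finset.mem_sdiff] at he
      have h1 := hT e he.1
      have h2 := hR2 e he.1 he.2
      rw [hsplit, Finset.sum_range_succ'] at h1
      push_cast at h1
      linarith)
    set c' : F → ℕ := fun e => if e ∈ R then 0 else c e + 1 with hc'
    have hc'R : ∀ e ∈ R, c' e = 0 := fun e he => by simp [hc', he]
    have hc'N : ∀ e, e ∉ R → c' e = c e + 1 := fun e he => by simp [hc', he]
    refine ⟨c', ?_, ?_⟩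
    · intro e he
      by_cases h : e ∈ R
      · rw [hc'R e h]; omega
      · rw [hc'N e h]
        have := hc1 e (Finset.mem_sdiff.2 ⟨he, h⟩)
        omega
    · intro e he
      by_cases h : e ∈ R
      · have h1 : T.filter (fun f => c' f = c' e) = R := by
          ext f
          rw [Finset.mem_filter, hc'R e h]
          constructor
          · rintro ⟨_, hf⟩
            by_contra hfR
            rw [hc'N f hfR] at hf
            omega
          · intro hf
            exact ⟨hRT hf, hc'R f hf⟩
        rw [h1, hc'R e h]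
        exact hR1 e h
      · have h1 : T.filter (fun f => c' f = c' e) = (T \ R).filter (fun f => c f = c e) := by
          ext f
          rw [Finset.mem_filter, Finset.mem_filter, Finset.mem_sdiff, hc'N e h]
          constructor
          · rintro ⟨hf1, hf⟩
            by_cases hfR : f ∈ R
            · rw [hc'R f hfR] at hf
              omega
            · rw [hc'N f hfR] at hf
              exact ⟨⟨hf1, hfR⟩, by omega⟩
          · rintro ⟨⟨hf1, hfR⟩, hf⟩
            exact ⟨hf1, by rw [hc'N f hfR, hf]⟩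
        rw [h1, hc'N e h]
        exact hc2 e (Finset.mem_sdiff.2 ⟨he, h⟩)

end Pool.Agent.Helper33.NMaxQ
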