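import Mathlib

/-!
# The diagonal of the projection on the span of a dominated class
-/

namespace Pool.Agent.Helper33.NMaxQ

open Finset Matrix

lemma proj {V ι : Type} [Fintype V] [DecidableEq V] [Fintype ι] [DecidableEq ι]
    (A : ι → Finset V) (k : ℕ) (hcard : ∀ e, (A e).card = k + 1)
    (hint : ∀ e f, e ≠ f → 1 ≤ (A e ∩ A f).card) (t : ι → ℝ)
    (ht : ∀ e, t e = ∑ f, if e = f then 0 else ((A e ∩ A f).card : ℝ) - 1)
    (htk : ∀ e, t e ≤ k - 1) :
    ∃ P : V → ℝ, (∀ v, 0 ≤ P v) ∧ (∀ v, P v ≤ 1) ∧ (∑ v, P v = Fintype.card ι) ∧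
      ∀ v, P v ≤ ∑ e ∈ univ.filter (fun e => v ∈ A e), 1 / ((k : ℝ) - t e) := by
  classical
  set χ : V → ι → ℝ := fun v e => if v ∈ A e then 1 else 0 with hχ
  set G : Matrix ι ι ℝ := fun e f => ((A e ∩ A f).card : ℝ) with hG
  have hGχ : ∀ e f, G e f = ∑ v, χ v e * χ v f := by
    intro e f
    simp only [hG, hχ]
    rw [Finset.card_eq_sum_ones, Nat.cast_sum]
    rw [← Finset.sum_filter_add_sum_filter_not univ (fun v => v ∈ A e ∩ A f)]
    have h1 : (univ.filter (fun v => v ∈ A e ∩ A f)) = A e ∩ A f := by ext v; simp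
    rw [h1]
    have h2 : ∑ v ∈ univ.filter (fun v => ¬ v ∈ A e ∩ A f),
        (if v ∈ A e then (1 : ℝ) else 0) * (if v ∈ A f then (1 : ℝ) else 0) = 0 := by
      refine Finset.sum_eq_zero fun v hv => ?_
      rw [Finset.mem_filter, Finset.mem_inter] at hv
      by_cases h3 : v ∈ A e
      · have : v ∉ A f := fun h4 => hv.2 ⟨h3, h4⟩
        simp [this]
      · simp [h3]
    rw [h2, add_zero]
    refine Finset.sum_congr rfl fun v hv => ?_
    rw [Finset.mem_inter] at hv
    simp [hv.1, hv.2]
  -- the quadratic form as a sum of squares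
  have hquad : ∀ x : ι → ℝ, x ⬝ᵥ (G *ᵥ x) = ∑ v, (χ v ⬝ᵥ x) ^ 2 := by
    intro x
    have h1 : x ⬝ᵥ (G *ᵥ x) = ∑ e, ∑ f, ∑ v, (χ v e * x e) * (χ v f * x f) := by
      simp only [dotProduct, mulVec]
      refine Finset.sum_congr rfl fun e _ => ?_
      rw [Finset.mul_sum]
      refine Finset.sum_congr rfl fun f _ => ?_
      rw [hGχ, Finset.sum_mul, Finset.mul_sum]
      refine Finset.sum_congr rfl fun v _ => ?_
      ring
    rw [h1]
    have h2 : ∀ v, (χ v ⬝ᵥ x) ^ 2 = ∑ e, ∑ f, (χ v e * x e) * (χ v f * x f) := by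
      intro v
      simp only [dotProduct]
      rw [sq, Finset.sum_mul_sum]
    simp only [h2]
    rw [Finset.sum_comm' (t' := univ) (s' := fun _ => univ) (by simp)]
    conv_rhs => rw [Finset.sum_comm]
    rw [Finset.sum_comm]
    refine Finset.sum_congr rfl fun e _ => ?_
    rw [Finset.sum_comm]
  -- lower bound
  have htnn : ∀ e, t e ≤ k - 1 := htk
  have hlow : ∀ x : ι → ℝ, ∑ e, ((k : ℝ) - t e) * (x e) ^ 2 ≤ x ⬝ᵥ (G *ᵥ x) := by
    intro x
    set E : ι → ι → ℝ := fun e f => if e = f then 0 else ((A e ∩ A f).card : ℝ) - 1 with hE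
    have hEnn : ∀ e f, 0 ≤ E e f := by
      intro e f
      simp only [hE]
      split_ifs with h
      · exact le_rfl
      · have := hint e f h
        have : (1 : ℝ) ≤ (A e ∩ A f).card := by exact_mod_cast this
        linarith
    have hEsymm : ∀ e f, E e f = E f e := by
      intro e f
      simp only [hE]
      rw [Finset.inter_comm]
      by_cases h : e = f
      · simp [h]
      · simp [h, Ne.symm h]
    have hGE : ∀ e f, G e f = 1 + (if e = f then (k : ℝ) else 0) + E e f := by
      intro e f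
      simp only [hG, hE]
      by_cases h : e = f
      · subst h
        rw [Finset.inter_self, hcard]
        simp
        ring
      · simp [h]
    have h1 : x ⬝ᵥ (G *ᵥ x) = (∑ e, x e) ^ 2 + (k : ℝ) * ∑ e, (x e) ^ 2 +
        ∑ e, ∑ f, E e f * (x e * x f) := by
      have h2 : x ⬝ᵥ (G *ᵥ x) = ∑ e, ∑ f, (x e * x f + (if e = f then (k : ℝ) * (x e) ^ 2 else 0)
          + E e f * (x e * x f)) := by
        simp only [dotProduct, mulVec]
        refine Finset.sum_congr rfl fun e _ => ?_
        rw [Finset.mul_sum]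
        refine Finset.sum_congr rfl fun f _ => ?_
        rw [hGE]
        by_cases h : e = f
        · subst h
          simp
          ring
        · simp [h]
          ring
      rw [h2]
      simp only [Finset.sum_add_distrib]
      congr 1
      congr 1
      · rw [sq, Finset.sum_mul_sum]
      · rw [Finset.mul_sum]
        refine Finset.sum_congr rfl fun e _ => ?_
        simp
    have h3 : -∑ e, t e * (x e) ^ 2 ≤ ∑ e, ∑ f, E e f * (x e * x f) := by
      have h4 : ∑ e, t e * (x e) ^ 2 = ∑ e, ∑ f, E e f * (x e) ^ 2 := by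
        refine Finset.sum_congr rfl fun e _ => ?_
        rw [ht, Finset.sum_mul]
      have h5 : ∑ e, ∑ f, E e f * (x f) ^ 2 = ∑ e, ∑ f, E e f * (x e) ^ 2 := by
        rw [Finset.sum_comm]
        refine Finset.sum_congr rfl fun e _ => Finset.sum_congr rfl fun f _ => ?_
        rw [hEsymm]
      have h6 : 0 ≤ ∑ e, ∑ f, E e f * (x e + x f) ^ 2 :=
        Finset.sum_nonneg fun e _ => Finset.sum_nonneg fun f _ =>
          mul_nonneg (hEnn e f) (sq_nonneg _)
      have h7 : ∑ e, ∑ f, E e f * (x e + x f) ^ 2 = ∑ e, ∑ f, E e f * (x e) ^ 2 +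
          ∑ e, ∑ f, E e f * (x f) ^ 2 + 2 * ∑ e, ∑ f, E e f * (x e * x f) := by
        rw [Finset.mul_sum, ← Finset.sum_add_distrib, ← Finset.sum_add_distrib]
        refine Finset.sum_congr rfl fun e _ => ?_
        rw [Finset.mul_sum, ← Finset.sum_add_distrib, ← Finset.sum_add_distrib]
        refine Finset.sum_congr rfl fun f _ => ?_
        ring
      rw [h7, h5] at h6
      rw [h4]
      linarith
    have h8 : ∑ e, ((k : ℝ) - t e) * (x e) ^ 2 = (k : ℝ) * ∑ e, (x e) ^ 2 -
        ∑ e, t e * (x e) ^ 2 := by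
      rw [Finset.mul_sum, ← Finset.sum_sub_distrib]
      refine Finset.sum_congr rfl fun e _ => ?_
      ring
    rw [h1, h8]
    nlinarith [sq_nonneg (∑ e, x e)]
  -- invertibility
  have hinj : Function.Injective G.mulVec := by
    have h0 : ∀ x : ι → ℝ, G *ᵥ x = 0 → x = 0 := by
      intro x hx
      have h1 := hlow x
      rw [hx, dotProduct_zero] at h1
      have h2 : ∀ e ∈ (univ : Finset ι), 0 ≤ ((k : ℝ) - t e) * (x e) ^ 2 := by
        intro e _
        have := htk e
        exact mul_nonneg (by linarith) (sq_nonneg _)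
      have h3 := (Finset.sum_eq_zero_iff_of_nonneg h2).1 (le_antisymm h1 (Finset.sum_nonneg h2))
      funext e
      have h4 := h3 e (Finset.mem_univ e)
      have h5 := htk e
      rcases mul_eq_zero.1 h4 with h6 | h6
      · linarith
      · simpa using h6
    intro x y hxy
    have h1 : G *ᵥ (x - y) = 0 := by
      rw [Matrix.mulVec_sub]
      exact sub_eq_zero.2 hxy
    exact sub_eq_zero.1 (h0 _ h1)
  have hunit : IsUnit G := Matrix.mulVec_injective_iff_isUnit.1 hinj
  have hdet : IsUnit G.det := (Matrix.isUnit_iff_isUnit_det G).1 hunit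
  have hmul : G * G⁻¹ = 1 := Matrix.mul_nonsing_inv G hdet
  have hmul' : G⁻¹ * G = 1 := Matrix.nonsing_inv_mul G hdet
  set x : V → ι → ℝ := fun v => G⁻¹ *ᵥ χ v with hx
  have hGx : ∀ v, G *ᵥ x v = χ v := by
    intro v
    simp only [hx]
    rw [Matrix.mulVec_mulVec, hmul, Matrix.one_mulVec]
  set P : V → ℝ := fun v => χ v ⬝ᵥ x v with hP
  have hPq : ∀ v, P v = x v ⬝ᵥ (G *ᵥ x v) := by
    intro v
    rw [hGx v, dotProduct_comm]
  have hPsum : ∀ v, P v = ∑ u, (χ u ⬝ᵥ x v) ^ 2 := by
    intro v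
    rw [hPq, hquad]
  have hPnn : ∀ v, 0 ≤ P v := by
    intro v
    rw [hPsum]
    exact Finset.sum_nonneg fun u _ => sq_nonneg _
  have hPsq : ∀ v, (P v) ^ 2 ≤ P v := by
    intro v
    conv_rhs => rw [hPsum]
    exact Finset.single_le_sum (f := fun u => (χ u ⬝ᵥ x v) ^ 2) (fun u _ => sq_nonneg _)
      (Finset.mem_univ v)
  refine ⟨P, hPnn, ?_, ?_, ?_⟩
  · intro v
    have h1 := hPsq v
    have h2 := hPnn v
    nlinarith
  · have h1 : ∑ v, P v = ∑ e, ∑ f, G⁻¹ e f * G f e := by
      have h2 : ∀ v, P v = ∑ e, ∑ f, G⁻¹ e f * (χ v f * χ v e) := by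
        intro v
        simp only [hP, hx, dotProduct, mulVec]
        refine Finset.sum_congr rfl fun e _ => ?_
        rw [Finset.mul_sum]
        refine Finset.sum_congr rfl fun f _ => ?_
        ring
      simp only [h2]
      rw [Finset.sum_comm]
      refine Finset.sum_congr rfl fun e _ => ?_
      rw [Finset.sum_comm]
      refine Finset.sum_congr rfl fun f _ => ?_
      rw [hGχ, Finset.mul_sum]
    rw [h1]
    have h3 : ∑ e, ∑ f, G⁻¹ e f * G f e = Matrix.trace (G⁻¹ * G) := by
      simp only [Matrix.trace, Matrix.diag, Matrix.mul_apply]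
    rw [h3, hmul', Matrix.trace_one]
  · intro v
    set S := ∑ e ∈ univ.filter (fun e => v ∈ A e), 1 / ((k : ℝ) - t e) with hS
    have hSnn : 0 ≤ S := by
      refine Finset.sum_nonneg fun e _ => ?_
      have := htk e
      exact one_div_nonneg.2 (by linarith)
    have h1 : P v = ∑ e ∈ univ.filter (fun e => v ∈ A e), x v e := by
      simp only [hP, dotProduct, hχ]
      rw [Finset.sum_filter]
      refine Finset.sum_congr rfl fun e _ => ?_
      split_ifs <;> simp
    have h2 : (∑ e ∈ univ.filter (fun e => v ∈ A e), x v e) ^ 2 ≤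
        S * ∑ e ∈ univ.filter (fun e => v ∈ A e), ((k : ℝ) - t e) * (x v e) ^ 2 := by
      refine Finset.sum_sq_le_sum_mul_sum_of_sq_le_mul _ ?_ ?_ ?_
      · intro e _
        have := htk e
        exact one_div_nonneg.2 (by linarith)
      · intro e _
        have := htk e
        exact mul_nonneg (by linarith) (sq_nonneg _)
      · intro e _
        have := htk e
        have h3 : (k : ℝ) - t e ≠ 0 := by
          intro h; linarith
        refine le_of_eq ?_
        field_simp
    have h3 : ∑ e ∈ univ.filter (fun e => v ∈ A e), ((k : ℝ) - t e) * (x v e) ^ 2 ≤ P v := by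
      refine le_trans ?_ (le_trans (hlow (x v)) (le_of_eq (hPq v).symm))
      refine Finset.sum_le_sum_of_subset_of_nonneg (Finset.filter_subset _ _) ?_
      intro e _ _
      have := htk e
      exact mul_nonneg (by linarith) (sq_nonneg _)
    rw [← h1] at h2
    have h4 : (P v) ^ 2 ≤ S * P v := le_trans h2 (mul_le_mul_of_nonneg_left h3 hSnn)
    rcases (hPnn v).lt_or_eq with h5 | h5
    · rw [sq] at h4
      exact le_of_mul_le_mul_right h4 h5
    · rw [← h5]
      exact hSnn

end Pool.Agent.Helper33.NMaxQ
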