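import Mathlib
import Pool.Agent.Helper33.NMaxQ.Greedy
import Pool.Agent.Helper33.NMaxQ.Proj

/-!
# The counting argument

`A e`, `e ∈ F`, are pairwise intersecting `(k+1)`-subsets of `V` (repetitions allowed), the degree
`d v` of a point is between `1` and `r = a (k+1) + b + 1`, `a ≥ 1`, and the number of sets is
`(k+1) r - k (a+1) + 1`.  This is impossible.

The slack `s v = r - d v = k (i v) + m v`, `0 ≤ m v < k`, is distributed over `a` colours: the colour
`0` gets `m v`, and each of the last `i v` colours gets `k`.  A greedy colouring of the sets with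
these weights gives `a` classes whose incidence vectors are linearly independent; the diagonals of
the projections onto their spans are then bounded vertex by vertex.
-/

namespace Pool.Agent.Helper33.NMaxQ

open Finset

set_option linter.unusedSectionVars false

variable {V F : Type} [Fintype V] [DecidableEq V] [Fintype F] [DecidableEq F]

/-- The degree of a point. -/
def deg (A : F → Finset V) (v : V) : ℕ := (univ.filter (fun e => v ∈ A e)).card

/-- The excess. -/
def exc (A : F → Finset V) (e f : F) : ℤ := if e = f then 0 else ((A e ∩ A f).card : ℤ) - 1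

lemma sum_deg (A : F → Finset V) (e : F) :
    ∑ v ∈ A e, deg A v = ∑ f, (A e ∩ A f).card := by
  have h1 : ∀ f, (A e ∩ A f).card = ∑ v ∈ A e, if v ∈ A f then 1 else 0 := by
    intro f
    rw [← Finset.card_filter]
    congr 1
  simp only [h1]
  rw [Finset.sum_comm]
  refine Finset.sum_congr rfl fun v _ => ?_
  rw [deg, ← Finset.card_filter]

/-- summing over vertices a function of the incident sets -/
lemma swap (A : F → Finset V) (S : Finset V) (T : Finset F) (g : V → F → ℝ) :
    ∑ v ∈ S, ∑ e ∈ T.filter (fun e => v ∈ A e), g v e =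
      ∑ e ∈ T, ∑ v ∈ S.filter (fun v => v ∈ A e), g v e := by
  simp only [Finset.sum_filter]
  rw [Finset.sum_comm]

lemma swap_nat (A : F → Finset V) (S : Finset V) :
    ∑ v ∈ S, deg A v = ∑ e, (S.filter (fun v => v ∈ A e)).card := by
  simp only [deg, Finset.card_filter]
  rw [Finset.sum_comm]

/-- the number of the last `i` elements of `range m` -/
lemma count_last {m i : ℕ} (hi : i ≤ m) :
    ((range m).filter (fun j => m ≤ j + i)).card = i := by
  have : (range m).filter (fun j => m ≤ j + i) = Finset.Ico (m - i) m := by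
    ext j
    rw [Finset.mem_filter, Finset.mem_range, Finset.mem_Ico]
    omega
  rw [this, Nat.card_Ico]
  omega

section
variable (A : F → Finset V) (k a b r : ℕ)

/-- The row identity `t_e + σ_e = k a - 1`. -/
lemma row (hn : Fintype.card F + k * (a + 1) = (k + 1) * r + 1)
    (hcard : ∀ e, (A e).card = k + 1) (hd : ∀ v, deg A v ≤ r) (e : F) :
    ∑ f, exc A e f + ∑ v ∈ A e, ((r - deg A v : ℕ) : ℤ) = k * a - 1 := by
  have h1 : ∑ v ∈ A e, ((r - deg A v : ℕ) : ℤ) = (k + 1) * r - ∑ v ∈ A e, (deg A v : ℤ) := by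
    have : ∀ v ∈ A e, ((r - deg A v : ℕ) : ℤ) = r - deg A v := fun v _ => by
      rw [Nat.cast_sub (hd v)]
    rw [Finset.sum_congr rfl this, Finset.sum_sub_distrib, Finset.sum_const, hcard, nsmul_eq_mul]
    push_cast
    ring
  have h2 : ∑ v ∈ A e, (deg A v : ℤ) = ∑ f, ((A e ∩ A f).card : ℤ) := by
    have := sum_deg A e
    exact_mod_cast this
  have h3 : ∑ f, exc A e f = ∑ f, ((A e ∩ A f).card : ℤ) - (k + 1) - (Fintype.card F - 1) := by
    have h4 : ∀ f, exc A e f = (((A e ∩ A f).card : ℤ) - 1) - (if e = f then (k : ℤ) else 0) := by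
      intro f
      by_cases h : e = f
      · subst h
        simp [exc, hcard]
      · simp [exc, h]
    simp only [h4, Finset.sum_sub_distrib]
    simp
    ring
  rw [h1, h2, h3]
  have h5 : (Fintype.card F : ℤ) + k * (a + 1) = (k + 1) * r + 1 := by exact_mod_cast hn
  linarith

set_option maxHeartbeats 4000000 in
theorem main (hk : 1 ≤ k) (ha : 1 ≤ a) (hr : r = a * (k + 1) + b + 1)
    (hn : Fintype.card F + k * (a + 1) = (k + 1) * r + 1)
    (hcard : ∀ e, (A e).card = k + 1) (hint : ∀ e f, e ≠ f → 1 ≤ (A e ∩ A f).card)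
    (hd : ∀ v, deg A v ≤ r) (hdpos : ∀ v, 1 ≤ deg A v) : False := by
  classical
  set s : V → ℕ := fun v => r - deg A v with hs
  have hrow := row A k a r hn hcard hd
  have hexnn : ∀ e f, 0 ≤ exc A e f := by
    intro e f
    unfold exc
    split_ifs with h
    · exact le_rfl
    · have := hint e f h
      have : (1 : ℤ) ≤ (A e ∩ A f).card := by exact_mod_cast this
      linarith
  have hexsymm : ∀ e f, exc A e f = exc A f e := by
    intro e f
    unfold exc
    rw [Finset.inter_comm]
    by_cases h : e = f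
    · simp [h]
    · simp [h, Ne.symm h]
  have hex0 : ∀ e, exc A e e = 0 := fun e => by simp [exc]
  have hsle : ∀ e, ∀ v ∈ A e, (s v : ℤ) ≤ ∑ v ∈ A e, (s v : ℤ) := by
    intro e v hv
    exact Finset.single_le_sum (f := fun v => (s v : ℤ)) (fun _ _ => by positivity) hv
  have hska : ∀ v, s v < k * a := by
    intro v
    have h1 : 0 < deg A v := hdpos v
    obtain ⟨e, he⟩ := Finset.card_pos.1 h1
    rw [Finset.mem_filter] at he
    have h2 := hsle e v he.2
    have h3 := hrow e
    have h4 : 0 ≤ ∑ f, exc A e f := Finset.sum_nonneg fun f _ => hexnn e f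
    have h7 : (s v : ℤ) < k * a := by linarith
    exact_mod_cast h7
  -- levels
  set i : V → ℕ := fun v => s v / k with hi
  set m : V → ℕ := fun v => s v % k with hm
  have him : ∀ v, k * i v + m v = s v := fun v => Nat.div_add_mod (s v) k
  have hmk : ∀ v, m v < k := fun v => Nat.mod_lt _ hk
  have hia : ∀ v, i v < a := fun v => Nat.div_lt_of_lt_mul (hska v)
  -- the weights
  set w : ℕ → F → ℤ := fun j e => if j = 0 then ∑ v ∈ A e, (m v : ℤ) else
    ∑ v ∈ A e, (if a ≤ j + i v then (k : ℤ) else 0) with hw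
  have hw0 : ∀ e, w 0 e = ∑ v ∈ A e, (m v : ℤ) := fun e => by simp [hw]
  have hwj : ∀ j e, 1 ≤ j → w j e = ∑ v ∈ A e, (if a ≤ j + i v then (k : ℤ) else 0) := by
    intro j e hj
    have : j ≠ 0 := by omega
    simp [hw, this]
  have hwnn : ∀ j e, 0 ≤ w j e := by
    intro j e
    rcases Nat.eq_zero_or_pos j with rfl | hj
    · rw [hw0]
      exact Finset.sum_nonneg fun v _ => by positivity
    · rw [hwj j e hj]
      refine Finset.sum_nonneg fun v _ => ?_
      split_ifs <;> positivity
  obtain ⟨a', rfl⟩ : ∃ a', a = a' + 1 := ⟨a - 1, by omega⟩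
  have hwsum : ∀ e, ∑ j ∈ range (a' + 1), w j e = ∑ v ∈ A e, (s v : ℤ) := by
    intro e
    rw [Finset.sum_range_succ', hw0]
    have h1 : ∀ j ∈ range a', w (j + 1) e =
        ∑ v ∈ A e, (if a' ≤ j + i v then (k : ℤ) else 0) := by
      intro j _
      rw [hwj (j + 1) e (by omega)]
      refine Finset.sum_congr rfl fun v _ => ?_
      have h2 : (a' + 1 ≤ j + 1 + i v) ↔ (a' ≤ j + i v) := by omega
      simp only [h2]
    rw [Finset.sum_congr rfl h1, Finset.sum_comm, ← Finset.sum_add_distrib]
    refine Finset.sum_congr rfl fun v _ => ?_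
    rw [← Finset.sum_filter, Finset.sum_const, count_last (by have := hia v; omega), nsmul_eq_mul]
    have := him v
    have h3 : ((k * i v + m v : ℕ) : ℤ) = s v := by rw [this]
    push_cast at h3
    linarith
  -- the colouring
  obtain ⟨c, hc1, hc2⟩ := exists_colouringW (exc A) hexsymm hex0 hexnn k (a' + 1) w univ (by
    intro e _
    rw [hwsum, hrow e])
  simp only [Finset.mem_univ, true_implies] at hc1 hc2
  -- own class sum
  set t : F → ℤ := fun e => ∑ f ∈ univ.filter (fun f => c f = c e), exc A e f with ht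
  have htnn : ∀ e, 0 ≤ t e := fun e => Finset.sum_nonneg fun f _ => hexnn e f
  have htw : ∀ e, t e + w (c e) e ≤ k - 1 := hc2
  have htk' : ∀ e, t e ≤ k - 1 := by
    intro e
    have h1 := htw e
    have h2 := hwnn (c e) e
    linarith
  have hkz : (1 : ℤ) ≤ k := by exact_mod_cast hk
  have hk0 : (0 : ℝ) < k := by exact_mod_cast hk
  have hnz : (Fintype.card F : ℤ) + k * ((a' + 1 : ℕ) + 1) = (k + 1) * r + 1 := by
    exact_mod_cast hn
  -- nonempty
  have hFpos : 0 < Fintype.card F := by
    have h1 : k * (a' + 1 + 1) ≤ (k + 1) * r := by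
      rw [hr]
      have h0 : (k + 1) * ((a' + 1) * (k + 1) + b + 1) =
        k * (a' + 1 + 1) + ((a' + 1) * (k * k + k + 1) + (k + 1) * b + 1) := by ring
      rw [h0]
      exact Nat.le_add_right _ _
    omega
  have hVpos : 0 < Fintype.card V := by
    obtain ⟨e₀⟩ : Nonempty F := Fintype.card_pos_iff.1 hFpos
    have h1 : (A e₀).Nonempty := by
      rw [← Finset.card_pos, hcard]
      omega
    obtain ⟨v, _⟩ := h1
    exact Fintype.card_pos_iff.2 ⟨v⟩
  -- projections
  have hproj : ∀ j : ℕ, ∃ P : V → ℝ, (∀ v, 0 ≤ P v) ∧ (∀ v, P v ≤ 1) ∧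
      (∑ v, P v = ((univ.filter (fun e => c e = j)).card : ℝ)) ∧
      ∀ v, P v ≤ ∑ e ∈ (univ.filter (fun e => c e = j)).filter (fun e => v ∈ A e),
        1 / ((k : ℝ) - t e) := by
    intro j
    have htk : ∀ e : {e // c e = j}, ((t e.1 : ℤ) : ℝ) ≤ k - 1 := by
      intro e
      have h2 : (t e.1 : ℤ) ≤ k - 1 := htk' e.1
      have h3 : ((t e.1 : ℤ) : ℝ) ≤ ((k - 1 : ℤ) : ℝ) := by exact_mod_cast h2
      push_cast at h3
      exact h3
    obtain ⟨P, hP1, hP2, hP3, hP4⟩ := proj (V := V) (ι := {e // c e = j}) (fun e => A e.1) k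
      (fun e => hcard e.1) (fun e f hef => hint e.1 f.1 (fun h => hef (Subtype.ext h)))
      (fun e => ((t e.1 : ℤ) : ℝ)) (by
        intro e
        have h1 : t e.1 = ∑ f : {e // c e = j}, exc A e.1 f.1 := by
          simp only [ht, e.2]
          rw [← Finset.sum_subtype (univ.filter (fun f => c f = j)) (by simp)
            (fun f => exc A e.1 f)]
        rw [h1]
        push_cast
        refine Finset.sum_congr rfl fun f _ => ?_
        unfold exc
        by_cases h : e = f
        · subst h; simp
        · have h' : e.1 ≠ f.1 := fun h' => h (Subtype.ext h')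
          rw [if_neg h', if_neg h]
          push_cast
          ring) htk
    refine ⟨P, hP1, hP2, ?_, ?_⟩
    · rw [hP3, Fintype.card_subtype]
    · intro v
      refine le_trans (hP4 v) (le_of_eq ?_)
      rw [Finset.sum_filter, Finset.sum_filter]
      rw [← Finset.sum_subtype (univ.filter (fun f => c f = j)) (by simp)
        (fun f => if v ∈ A f then 1 / ((k : ℝ) - t f) else 0)]
  choose P hP0 hP1 hPs hPb using hproj
  -- `P j v = 0` when `j ≥ 1` and `j + i v ≥ a`
  have hPz : ∀ j v, 1 ≤ j → a' + 1 ≤ j + i v → P j v = 0 := by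
    intro j v hj1 hj
    refine le_antisymm ?_ (hP0 j v)
    refine le_trans (hPb j v) (le_of_eq ?_)
    refine Finset.sum_eq_zero fun e he => ?_
    exfalso
    rw [Finset.mem_filter, Finset.mem_filter] at he
    obtain ⟨⟨_, hej⟩, hve⟩ := he
    have h3 := htw e
    have h4 := htnn e
    rw [hej, hwj j e hj1] at h3
    have h5 : (if a' + 1 ≤ j + i v then (k : ℤ) else 0) ≤
        ∑ v ∈ A e, (if a' + 1 ≤ j + i v then (k : ℤ) else 0) := by
      refine Finset.single_le_sum (f := fun v => (if a' + 1 ≤ j + i v then (k : ℤ) else 0))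
        (fun u _ => ?_) hve
      show (0 : ℤ) ≤ if a' + 1 ≤ j + i u then (k : ℤ) else 0
      split_ifs <;> positivity
    rw [if_pos hj] at h5
    linarith
  -- the term of a vertex
  have hterm : ∀ v, ((b : ℝ) + 1) + i v - m v * P 0 v ≤
      (deg A v : ℝ) - (k + 1) * ∑ j ∈ range (a' + 1), P j v := by
    intro v
    have h1 := hia v
    have h2 : ∑ j ∈ range (a' + 1), P j v ≤ ((a' : ℝ) - i v) + P 0 v := by
      rw [Finset.sum_range_succ']
      have h3 : ∑ j ∈ range a', P (j + 1) v ≤
          ∑ j ∈ range a', (if a' ≤ j + i v then (0 : ℝ) else 1) := by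
        refine Finset.sum_le_sum fun j _ => ?_
        split_ifs with h
        · rw [hPz (j + 1) v (by omega) (by omega)]
        · exact hP1 _ v
      have h4 : ∑ j ∈ range a', (if a' ≤ j + i v then (0 : ℝ) else 1) = (a' : ℝ) - i v := by
        have h5 : ∀ j ∈ range a', (if a' ≤ j + i v then (0 : ℝ) else 1) =
            1 - (if a' ≤ j + i v then (1 : ℝ) else 0) := by
          intro j _
          split_ifs <;> norm_num
        rw [Finset.sum_congr rfl h5, Finset.sum_sub_distrib, Finset.sum_const, Finset.card_range,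
          ← Finset.sum_filter, Finset.sum_const, count_last (by omega)]
        simp
      linarith
    have h6 : (deg A v : ℝ) = r - s v := by
      have h7 : deg A v + s v = r := by
        have := hd v
        simp only [hs]
        omega
      have h8 : ((deg A v + s v : ℕ) : ℝ) = r := by rw [h7]
      push_cast at h8
      linarith
    have h9 : (s v : ℝ) = k * i v + m v := by
      have := him v
      exact_mod_cast this.symm
    have h10 : (r : ℝ) = (a' + 1) * (k + 1) + b + 1 := by
      rw [hr]; push_cast; ring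
    rw [h6, h9, h10]
    have h11 : ((k : ℝ) + 1) * ∑ j ∈ range (a' + 1), P j v ≤
        ((k : ℝ) + 1) * (((a' : ℝ) - i v) + P 0 v) :=
      mul_le_mul_of_nonneg_left h2 (by positivity)
    have h13 : (m v : ℝ) * (1 - P 0 v) ≤ (k + 1) * (1 - P 0 v) := by
      refine mul_le_mul_of_nonneg_right ?_ (by have := hP1 0 v; linarith)
      have := hmk v
      have : (m v : ℝ) < k := by exact_mod_cast this
      linarith
    linarith
  -- total
  have htotal : ∑ v, ((deg A v : ℝ) - (k + 1) * ∑ j ∈ range (a' + 1), P j v) = 0 := by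
    rw [Finset.sum_sub_distrib, ← Finset.mul_sum, Finset.sum_comm]
    simp only [hPs]
    have h1 : ∑ v, (deg A v : ℝ) = (k + 1) * Fintype.card F := by
      have h2 := swap_nat A univ
      have h3 : ∀ e, (univ.filter (fun v => v ∈ A e)).card = k + 1 := by
        intro e
        rw [← hcard e]
        congr 1
        ext v; simp
      simp only [h3] at h2
      rw [Finset.sum_const, Finset.card_univ, smul_eq_mul] at h2
      have h4 : ((∑ v, deg A v : ℕ) : ℝ) = ((Fintype.card F * (k + 1) : ℕ) : ℝ) := by rw [h2]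
      push_cast at h4
      rw [h4]
      ring
    have h2 : ∑ j ∈ range (a' + 1), ((univ.filter (fun e => c e = j)).card : ℝ) =
        Fintype.card F := by
      rw [← Finset.card_univ]
      have h3 := Finset.card_eq_sum_card_fiberwise (f := c) (s := (univ : Finset F))
        (t := range (a' + 1)) (by
          intro e _
          simpa using hc1 e)
      rw [h3]
      push_cast
      rfl
    rw [h1, h2, sub_self]
  -- the class of colour `0`
  have hcost : ∑ v, (m v : ℝ) * P 0 v ≤
      (1 - 1 / k) * ((univ.filter (fun e => c e = 0)).card : ℝ) := by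
    have h1 : ∑ v, (m v : ℝ) * P 0 v ≤
        ∑ v ∈ (univ : Finset V),
          ∑ e ∈ (univ.filter (fun e => c e = 0)).filter (fun e => v ∈ A e),
            (m v : ℝ) * (1 / ((k : ℝ) - t e)) := by
      refine Finset.sum_le_sum fun v _ => ?_
      rw [← Finset.mul_sum]
      exact mul_le_mul_of_nonneg_left (hPb _ v) (by positivity)
    refine le_trans h1 ?_
    rw [swap]
    have h2 : ∀ e ∈ univ.filter (fun e => c e = 0),
        ∑ v ∈ (univ : Finset V).filter (fun v => v ∈ A e),
          (m v : ℝ) * (1 / ((k : ℝ) - t e)) ≤ 1 - 1 / k := by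
      intro e he
      rw [Finset.mem_filter] at he
      rw [← Finset.sum_mul]
      have h3 := htw e
      rw [he.2, hw0] at h3
      have h5 : (univ : Finset V).filter (fun v => v ∈ A e) = A e := by ext v; simp
      rw [h5]
      have h6 : ∑ v ∈ A e, (m v : ℝ) ≤ k - 1 - t e := by
        have h6' : ∑ v ∈ A e, (m v : ℤ) ≤ k - 1 - t e := by linarith
        have : ((∑ v ∈ A e, (m v : ℤ) : ℤ) : ℝ) ≤ ((k - 1 - t e : ℤ) : ℝ) := by
          exact_mod_cast h6'
        push_cast at this
        exact this
      have h7 : (0 : ℝ) ≤ t e := by exact_mod_cast htnn e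
      have h8 : (t e : ℝ) ≤ k - 1 := by
        have : ((t e : ℤ) : ℝ) ≤ ((k - 1 : ℤ) : ℝ) := by exact_mod_cast htk' e
        push_cast at this
        exact this
      have h9 : (0 : ℝ) < (k : ℝ) - t e := by linarith
      rw [mul_one_div, div_le_iff₀ h9]
      have h10 : (1 - 1 / (k : ℝ)) * ((k : ℝ) - t e) = k - 1 - t e + t e / k := by
        field_simp
        ring
      rw [h10]
      have h11 : (0 : ℝ) ≤ t e / k := by positivity
      linarith
    refine le_trans (Finset.sum_le_card_nsmul _ _ _ h2) (le_of_eq ?_)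
    rw [nsmul_eq_mul, mul_comm]
  have hR0 : ((univ.filter (fun e => c e = 0)).card : ℝ) ≤ Fintype.card V := by
    rw [← hPs 0]
    refine le_trans (Finset.sum_le_sum fun v _ => hP1 0 v) (le_of_eq ?_)
    simp
  -- conclusion
  have hsum : ∑ v, (((b : ℝ) + 1) + i v - m v * P 0 v) ≤ 0 := by
    rw [← htotal]
    exact Finset.sum_le_sum fun v _ => hterm v
  rw [Finset.sum_sub_distrib, Finset.sum_add_distrib, Finset.sum_const, Finset.card_univ,
    nsmul_eq_mul] at hsum
  have h1 : (0 : ℝ) ≤ ∑ v, (i v : ℝ) := Finset.sum_nonneg fun v _ => by positivity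
  have hN : (0 : ℝ) < Fintype.card V := by exact_mod_cast hVpos
  have h2 : (0 : ℝ) ≤ 1 - 1 / k := by
    have : (1 : ℝ) / k ≤ 1 := by
      rw [div_le_one hk0]
      exact_mod_cast hk
    linarith
  have h3 : (1 - 1 / (k : ℝ)) * ((univ.filter (fun e => c e = 0)).card : ℝ) ≤
      (1 - 1 / (k : ℝ)) * Fintype.card V := mul_le_mul_of_nonneg_left hR0 h2
  have h4 : (0 : ℝ) ≤ (Fintype.card V : ℝ) * b := by positivity
  have h5 : (0 : ℝ) < (Fintype.card V : ℝ) / k := by positivity
  have h6 : (1 - 1 / (k : ℝ)) * Fintype.card V = Fintype.card V - (Fintype.card V : ℝ) / k := by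
    ring
  rw [h6] at h3
  linarith

end

end Pool.Agent.Helper33.NMaxQ
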