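import Mathlib
import Pool.Agent.Helper99.NMax.Defs
import Pool.Agent.Helper33.NMaxQ.Main

/-!
# The upper bound `n(D,1,r) ≤ 1 + D (r - 1) - (D - 1) ⌊(r - 1) / D⌋`
-/

namespace Pool.Agent.Helper33.NMaxQ

open Finset Pool.Agent.Helper99.NMax

/-- A vertex of degree `c` forces `n ≤ 1 + c (r - 1)`. -/
lemma le_of_degree {n D r : ℕ} {E : Finset (Finset (Fin n))} (hE : IsDiamOne D r E) (x : Fin n) :
    n ≤ 1 + (E.filter (fun e => x ∈ e)).card * (r - 1) := by
  classical
  have hsub : (Finset.univ.erase x : Finset (Fin n)) ⊆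
      (E.filter (fun e => x ∈ e)).biUnion (fun e => e.erase x) := by
    intro y hy
    obtain ⟨e, he, hx, hy'⟩ := hE.covers x y (Finset.ne_of_mem_erase hy).symm
    rw [Finset.mem_biUnion]
    exact ⟨e, Finset.mem_filter.2 ⟨he, hx⟩, Finset.mem_erase.2 ⟨Finset.ne_of_mem_erase hy, hy'⟩⟩
  have h1 := Finset.card_le_card hsub
  rw [Finset.card_erase_of_mem (Finset.mem_univ x), Finset.card_univ, Fintype.card_fin] at h1
  have h2 : ((E.filter (fun e => x ∈ e)).biUnion (fun e => e.erase x)).card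
      ≤ (E.filter (fun e => x ∈ e)).card * (r - 1) := by
    refine Finset.card_biUnion_le_card_mul _ _ _ ?_
    intro e he
    rw [Finset.mem_filter] at he
    rw [Finset.card_erase_of_mem he.2]
    exact Nat.sub_le_sub_right (hE.rank e he.1) 1
  omega

theorem bound {n k a b r : ℕ} (hk : 1 ≤ k) (ha : 1 ≤ a) (hr : r = a * (k + 1) + b + 1)
    (hG : Good (k + 1) r n) : n + k * (a + 1) ≤ (k + 1) * r := by
  classical
  by_contra hcon
  push Not at hcon
  -- pass to exactly `(k+1) r - k (a+1) + 1` vertices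
  have hka : k * (a + 1) ≤ (k + 1) * r := by
    rw [hr]
    have h0 : (k + 1) * (a * (k + 1) + b + 1) =
      k * (a + 1) + (a * (k * k + k + 1) + (k + 1) * b + 1) := by ring
    rw [h0]
    exact Nat.le_add_right _ _
  obtain ⟨n', hn'⟩ : ∃ n', n' + k * (a + 1) = (k + 1) * r + 1 :=
    ⟨(k + 1) * r + 1 - k * (a + 1), by omega⟩
  have hG' : Good (k + 1) r n' := good_mono hG le_rfl le_rfl (by omega)
  obtain ⟨E, hE⟩ := hG'
  let V := {v : Finset (Fin n') // v ∈ E}
  let A : Fin n' → Finset V := fun x => univ.filter (fun v : V => x ∈ v.1)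
  have hAcard : ∀ x, (A x).card = (E.filter (fun e => x ∈ e)).card := by
    intro x
    refine Finset.card_bij (fun v _ => v.1) ?_ ?_ ?_
    · intro v hv
      rw [Finset.mem_filter] at hv ⊢
      exact ⟨v.2, hv.2⟩
    · intro v _ w _ hvw
      exact Subtype.ext hvw
    · intro e he
      rw [Finset.mem_filter] at he
      exact ⟨⟨e, he.1⟩, Finset.mem_filter.2 ⟨Finset.mem_univ _, he.2⟩, rfl⟩
  have hdeg : ∀ v : V, deg A v = v.1.card := by
    intro v
    unfold deg
    congr 1
    ext x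
    simp [A]
  refine main A k a b r hk ha hr ?_ ?_ ?_ ?_ ?_
  · rw [Fintype.card_fin]
    exact hn'
  · intro x
    refine le_antisymm ?_ ?_
    · rw [hAcard]
      exact hE.degree x
    · rw [hAcard]
      by_contra hlt
      push Not at hlt
      have h1 := le_of_degree hE x
      have h2 : (E.filter (fun e => x ∈ e)).card * (r - 1) ≤ k * (r - 1) :=
        Nat.mul_le_mul_right _ (by omega)
      have h3 : n' ≤ 1 + k * (r - 1) := by omega
      have hr1 : r - 1 = a * (k + 1) + b := by omega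
      rw [hr1] at h3
      rw [hr] at hn'
      have h4 : (k + 1) * (a * (k + 1) + b + 1) + 1 =
        k * (a + 1) + (1 + k * (a * (k + 1) + b)) + (a + b + 1) := by ring
      omega
  · intro x y hxy
    obtain ⟨e, he, hx, hy⟩ := hE.covers x y hxy
    refine Finset.card_pos.2 ⟨⟨e, he⟩, ?_⟩
    simp [A, hx, hy]
  · intro v
    rw [hdeg]
    exact hE.rank v.1 v.2
  · intro v
    rw [hdeg]
    exact Finset.card_pos.2 (hE.nonempty v.1 v.2)

/-- **Upper bound.** -/
theorem upper_bound (D r : ℕ) : nMax D r ≤ 1 + D * (r - 1) - (D - 1) * ((r - 1) / D) := by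
  refine nMax_le fun n hn => ?_
  rcases Nat.lt_or_ge D 2 with hD | hD
  · have h1 := good_le hn
    have h2 : D - 1 = 0 := by omega
    rw [h2, zero_mul, Nat.sub_zero]
    exact h1
  obtain ⟨k, rfl⟩ : ∃ k, D = k + 1 := ⟨D - 1, by omega⟩
  rw [Nat.add_sub_cancel]
  obtain ⟨a, ha⟩ : ∃ a, a = (r - 1) / (k + 1) := ⟨_, rfl⟩
  rw [← ha]
  rcases Nat.eq_zero_or_pos a with h0 | hapos
  · rw [h0, mul_zero, Nat.sub_zero]
    exact good_le hn
  · have hmod : (r - 1) % (k + 1) < k + 1 := Nat.mod_lt _ (by omega)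
    have hdm := Nat.div_add_mod (r - 1) (k + 1)
    rw [← ha] at hdm
    obtain ⟨b, hb⟩ : ∃ b, b = (r - 1) % (k + 1) := ⟨_, rfl⟩
    rw [← hb] at hdm
    have hr1 : 1 ≤ r := by
      by_contra hcon
      have : r - 1 = 0 := by omega
      rw [this] at ha
      simp at ha
      omega
    have hr : r = a * (k + 1) + b + 1 := by
      rw [mul_comm a]; omega
    have h1 := bound (b := b) (by omega) hapos hr hn
    have h3 : (k + 1) * r = (k + 1) * (r - 1) + (k + 1) := by
      obtain ⟨s, rfl⟩ : ∃ s, r = s + 1 := ⟨r - 1, by omega⟩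
      rw [Nat.add_sub_cancel]; ring
    have h4 : k * (a + 1) = k * a + k := by ring
    have h5 : k * a ≤ 1 + (k + 1) * (r - 1) := by
      have h6 : k * a ≤ (k + 1) * a := Nat.mul_le_mul_right _ (by omega)
      have h7 : r - 1 ≤ (k + 1) * (r - 1) := Nat.le_mul_of_pos_left _ (by omega)
      omega
    omega

end Pool.Agent.Helper33.NMaxQ
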