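import Mathlib
import Pool.Agent.Helper99.NMax.Arcs
import Pool.Agent.Helper99.NMax.Planes

/-!
# Lower bounds for `n(q+1,1,r)`, `q` a prime power, `r > q + 1`

In the projective plane over a field `K` with `q` elements the `q` lines `y = m x - m²` have the
property that every point lies on at most two of them.  Remove `q + 1 - β` of these lines from
`a + 1 ≥ 2` copies of the plane.
-/

namespace Pool.Agent.Helper33.NMaxQ

open Finset Pool.Agent.Helper99.NMax

section

variable {K : Type} [Field K]

/-- The line `y = m x - m²`. -/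
def tang (m : K) : PG K := Sum.inl (m, -m ^ 2)

/-- Any line meets the line `y = m x - m²`. -/
lemma tang_meet (l : PG K) (m : K) : ∃ p, inc K p l ∧ inc K p (tang m) := by
  rcases l with ⟨m', c'⟩ | (_ | c)
  · by_cases h : m' = m
    · exact ⟨Sum.inr (some m), by rw [inc_sl]; exact h.symm, by rw [tang, inc_sl]⟩
    · have h' : m' - m ≠ 0 := sub_ne_zero.2 h
      refine ⟨Sum.inl ((-m ^ 2 - c') / (m' - m), m' * ((-m ^ 2 - c') / (m' - m)) + c'), ?_, ?_⟩
      · rw [inc_ll]
      · rw [tang, inc_ll]
        field_simp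
        ring
  · exact ⟨Sum.inr (some m), by simp, by rw [tang, inc_sl]⟩
  · exact ⟨Sum.inl (c, m * c + -m ^ 2), by simp, by rw [tang, inc_ll]⟩

open Classical in
/-- Every point lies on at most two of the lines `y = m x - m²`. -/
lemma tang_le_two (S : Finset K) (p : PG K) : (S.filter (fun m => inc K p (tang m))).card ≤ 2 := by
  rcases p with ⟨x, y⟩ | (_ | m')
  · rcases (S.filter (fun m => inc K (Sum.inl (x, y)) (tang m))).eq_empty_or_nonempty with he | ⟨m₀, hm₀⟩
    · rw [he]; simp
    · have hsub : S.filter (fun m => inc K (Sum.inl (x, y)) (tang m)) ⊆ {m₀, x - m₀} := by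
        intro m hm
        have e1 : y = m * x + -m ^ 2 := by
          have := (Finset.mem_filter.1 hm).2
          rwa [tang, inc_ll] at this
        have e2 : y = m₀ * x + -m₀ ^ 2 := by
          have := (Finset.mem_filter.1 hm₀).2
          rwa [tang, inc_ll] at this
        have e3 : (m - m₀) * (m - (x - m₀)) = 0 := by linear_combination e1 - e2
        rw [Finset.mem_insert, Finset.mem_singleton]
        rcases mul_eq_zero.1 e3 with e4 | e4
        · exact Or.inl (sub_eq_zero.1 e4)
        · exact Or.inr (sub_eq_zero.1 e4)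
      exact le_trans (Finset.card_le_card hsub) Finset.card_le_two
  · have : S.filter (fun m => inc K (Sum.inr none) (tang m)) = ∅ := by
      rw [Finset.filter_eq_empty_iff]
      intro m _
      rw [tang]
      exact inc_nl
    rw [this]; simp
  · have hsub : S.filter (fun m => inc K (Sum.inr (some m')) (tang m)) ⊆ {m'} := by
      intro m hm
      have := (Finset.mem_filter.1 hm).2
      rw [tang, inc_sl] at this
      rw [Finset.mem_singleton]
      exact this.symm
    refine le_trans (Finset.card_le_card hsub) ?_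
    simp

open Classical in
lemma good_field [Fintype K] (a t : ℕ) (ha : 1 ≤ a) (ht : t ≤ Fintype.card K) :
    ∃ N, (a + 1) * (Fintype.card K ^ 2 + Fintype.card K + 1) ≤ N + t * (Fintype.card K + 1) ∧
      Good (Fintype.card K + 1) ((a + 1) * (Fintype.card K + 1) - t) N := by
  obtain ⟨S, -, hS⟩ := Finset.exists_subset_card_eq (s := (univ : Finset K)) (n := t)
    (by rw [Finset.card_univ]; exact ht)
  set x : PG K → ℕ := fun p => (S.filter (fun m => inc K p (tang m))).card with hx
  have hx2 : ∀ p, x p ≤ 2 := tang_le_two S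
  have hxa : ∀ p, x p ≤ a + 1 := fun p => le_trans (hx2 p) (by omega)
  set w : PG K → ℕ := fun p => a + 1 - x p with hw
  have hwx : ∀ p, w p + x p = a + 1 := fun p => by
    have := hxa p
    simp only [hw]
    omega
  have hsumwx : ∀ s : Finset (PG K), ∑ p ∈ s, w p + ∑ p ∈ s, x p = (a + 1) * s.card := by
    intro s
    rw [← Finset.sum_add_distrib, Finset.sum_congr rfl (fun p _ => hwx p), Finset.sum_const,
      smul_eq_mul, mul_comm]
  have hsumx : ∀ s : Finset (PG K), ∑ p ∈ s, x p =
      ∑ m ∈ S, (s.filter (fun p => inc K p (tang m))).card := by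
    intro s
    simp only [hx, Finset.card_filter]
    rw [Finset.sum_comm]
  have hup : ∑ p, x p ≤ t * (Fintype.card K + 1) := by
    rw [hsumx, ← hS, ← smul_eq_mul]
    exact Finset.sum_le_card_nsmul _ _ _ fun m _ => inc_size _
  have hlo : ∀ l : PG K, t ≤ ∑ p ∈ univ.filter (fun p => inc K p l), x p := by
    intro l
    rw [hsumx, ← hS, Finset.card_eq_sum_ones]
    refine Finset.sum_le_sum fun m _ => ?_
    obtain ⟨p, h1, h2⟩ := tang_meet l m
    exact Finset.card_pos.2 ⟨p, by simp [h1, h2]⟩
  refine ⟨∑ p, w p, ?_, ?_⟩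
  · have h1 := hsumwx univ
    have h3 : (univ : Finset (PG K)).card = Fintype.card K ^ 2 + Fintype.card K + 1 := by
      rw [Finset.card_univ, Fintype.card_sum, Fintype.card_prod, Fintype.card_option]
      ring
    rw [h3] at h1
    omega
  · refine good_blowup (fun l : PG K => univ.filter (fun p => inc K p l)) w ?_ ?_ ?_
    · intro p p'
      obtain ⟨l, h1, h2⟩ := inc_cov p p'
      exact ⟨l, by simp [h1], by simp [h2]⟩
    · intro p
      refine le_trans (le_of_eq ?_) (inc_deg p)
      congr 1
      ext l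
      simp
    · intro l
      have h1 := hsumwx (univ.filter (fun p => inc K p l))
      have h2 := hlo l
      have h3 : (a + 1) * (univ.filter (fun p => inc K p l)).card ≤
          (a + 1) * (Fintype.card K + 1) := Nat.mul_le_mul_left _ (inc_size l)
      show ∑ p ∈ univ.filter (fun p => inc K p l), w p ≤ _
      omega

end

theorem lower_dual {q a β : ℕ} (hq : IsPrimePow q) (ha : 1 ≤ a) (hβ1 : 1 ≤ β) (hβ2 : β ≤ q + 1) :
    Good (q + 1) (a * (q + 1) + β) (a * (q ^ 2 + q + 1) + 1 + (q + 1) * (β - 1)) := by
  classical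
  obtain ⟨p, h, hp, hh, rfl⟩ := hq
  have hp' : Nat.Prime p := hp.nat_prime
  have : Fact p.Prime := ⟨hp'⟩
  let K := GaloisField p h
  have : Fintype K := Fintype.ofFinite K
  have hK : Fintype.card K = p ^ h := by
    rw [← Nat.card_eq_fintype_card]
    exact GaloisField.card p h hh.ne'
  obtain ⟨c, rfl⟩ : ∃ c, β = c + 1 := ⟨β - 1, by omega⟩
  obtain ⟨t, ht⟩ : ∃ t, t + c = p ^ h := ⟨p ^ h - c, by omega⟩
  obtain ⟨N, h1, h2⟩ := good_field (K := K) a t ha (by rw [hK]; omega)
  rw [hK] at h1 h2
  set q := p ^ h with hq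
  refine good_mono h2 le_rfl ?_ ?_
  · have h3 : (a + 1) * (q + 1) = a * (q + 1) + q + 1 := by ring
    omega
  · rw [Nat.add_sub_cancel]
    have h4 : (a + 1) * (q ^ 2 + q + 1) =
        a * (q ^ 2 + q + 1) + 1 + (q + 1) * c + t * (q + 1) := by
      rw [← ht]; ring
    omega

end Pool.Agent.Helper33.NMaxQ
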