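import Mathlib
import Pool.Agent.Helper99.NMax.Defs

/-!
# Small cases: `n(6,1,3) = 13` and `n(6,1,4) = 18`
-/

namespace Pool.Agent.Helper33.NMaxQ

open Finset Pool.Agent.Helper99.NMax

/-- The trivial bound is attained only if `r` divides `D` times the number of vertices. -/
lemma dvd_of_good {D s : ℕ} (hs : 1 ≤ s) (h : Good D (s + 1) (D * s + 1)) :
    (s + 1) ∣ (D * s + 1) * D := by
  classical
  obtain ⟨E, hE⟩ := h
  set S : Fin (D * s + 1) → Finset (Finset (Fin (D * s + 1))) :=
    fun v => E.filter (fun e => v ∈ e) with hS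
  have hcov : ∀ v, D * s ≤ ∑ e ∈ S v, (e.card - 1) := by
    intro v
    have hsub : (Finset.univ.erase v : Finset (Fin (D * s + 1))) ⊆
        (S v).biUnion (fun e => e.erase v) := by
      intro y hy
      obtain ⟨e, he, hx, hy'⟩ := hE.covers v y (Finset.ne_of_mem_erase hy).symm
      rw [Finset.mem_biUnion]
      exact ⟨e, Finset.mem_filter.2 ⟨he, hx⟩, Finset.mem_erase.2 ⟨Finset.ne_of_mem_erase hy, hy'⟩⟩
    have h1 := Finset.card_le_card hsub
    rw [Finset.card_erase_of_mem (Finset.mem_univ v), Finset.card_univ, Fintype.card_fin,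
      Nat.add_sub_cancel] at h1
    refine le_trans h1 (le_trans Finset.card_biUnion_le (le_of_eq ?_))
    refine Finset.sum_congr rfl fun e he => ?_
    exact Finset.card_erase_of_mem (Finset.mem_filter.1 he).2
  have hle : ∀ v, ∀ e ∈ S v, e.card - 1 ≤ s := by
    intro v e he
    have := hE.rank e (Finset.mem_filter.1 he).1
    omega
  have hdeg : ∀ v, (S v).card = D := by
    intro v
    have h1 : (S v).card ≤ D := hE.degree v
    have h2 := Finset.sum_le_card_nsmul (S v) _ s (hle v)
    have h3 := hcov v
    rw [smul_eq_mul] at h2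
    have h4 : D * s ≤ (S v).card * s := le_trans h3 h2
    exact le_antisymm h1 (Nat.le_of_mul_le_mul_right h4 hs)
  have hfull : ∀ v, ∀ e ∈ S v, e.card = s + 1 := by
    intro v e he
    by_contra hne
    have h1 : e.card - 1 < s := by
      have := hE.rank e (Finset.mem_filter.1 he).1
      omega
    have h2 : ∑ e ∈ S v, (e.card - 1) < ∑ _e ∈ S v, s :=
      Finset.sum_lt_sum (hle v) ⟨e, he, h1⟩
    rw [Finset.sum_const, hdeg v, smul_eq_mul] at h2
    have := hcov v
    omega
  have hall : ∀ e ∈ E, e.card = s + 1 := by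
    intro e he
    obtain ⟨v, hv⟩ := hE.nonempty e he
    exact hfull v e (Finset.mem_filter.2 ⟨he, hv⟩)
  have hcount : ∑ v, (S v).card = ∑ e ∈ E, e.card := by
    simp only [hS, Finset.card_filter]
    rw [Finset.sum_comm]
    refine Finset.sum_congr rfl fun e _ => ?_
    rw [← Finset.card_filter]
    congr 1
    ext v; simp
  rw [Finset.sum_congr rfl fun v _ => hdeg v, Finset.sum_congr rfl fun e he => hall e he,
    Finset.sum_const, Finset.sum_const, Finset.card_univ, Fintype.card_fin, smul_eq_mul,
    smul_eq_mul] at hcount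
  rw [hcount]
  exact Dvd.intro_left _ rfl

/-- There is no `(6,1,4)`-hypergraph with nineteen vertices. -/
lemma not_good_6_4 : ¬ Good 6 4 19 := by
  intro h
  have := dvd_of_good (D := 6) (s := 3) (by norm_num) h
  revert this
  decide

/-- The blocks of a cyclic Steiner triple system on thirteen points, as binary masks. -/
def masks13 : List ℕ :=
  [19, 38, 76, 152, 304, 608, 1216, 2432, 4864, 1537, 3074, 6148, 4105, 133, 266, 532, 1064,
    2128, 4256, 321, 642, 1284, 2568, 5136, 2081, 4162]

/-- The blocks of a covering of the pairs of eighteen points, as binary masks. -/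
def masks18 : List ℕ :=
  [114692, 17537, 65801, 85, 33352, 10753, 65760, 205824, 163888, 7232, 149512, 139332, 4236,
    24720, 33825, 21024, 34946, 1304, 8234, 67602, 2340, 45312, 135171, 16706, 70160, 1542,
    131968]

/-- A family given by masks. -/
lemma good_of_masks {n B Δ r : ℕ} (L : List ℕ)
    (hcov : ∀ x y : Fin n, ∃ i : Fin B, (L.getD i 0).testBit x = true ∧
      (L.getD i 0).testBit y = true)
    (hdeg : ∀ x : Fin n,
      (univ.filter (fun i : Fin B => (L.getD i 0).testBit x = true)).card ≤ Δ)
    (hrank : ∀ i : Fin B,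
      (univ.filter (fun x : Fin n => (L.getD i 0).testBit x = true)).card ≤ r) : Good Δ r n := by
  refine good_of_family (V := Fin n) (ι := Fin B) (Function.Embedding.refl _)
    (fun i => univ.filter (fun x : Fin n => (L.getD i 0).testBit x = true)) ?_ ?_ ?_
  · intro x y _
    obtain ⟨i, h1, h2⟩ := hcov x y
    exact ⟨i, by simpa using h1, by simpa using h2⟩
  · intro x
    refine le_trans (le_of_eq ?_) (hdeg x)
    congr 1
    ext i
    simp
  · exact hrank

set_option maxRecDepth 100000 in
/-- A `(6,1,3)`-hypergraph with thirteen vertices. -/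
lemma good_6_3 : Good 6 3 13 := by
  refine good_of_masks (B := 26) masks13 ?_ ?_ ?_
  · decide +kernel
  · decide +kernel
  · decide +kernel

set_option maxRecDepth 100000 in
/-- A `(6,1,4)`-hypergraph with eighteen vertices. -/
lemma good_6_4 : Good 6 4 18 := by
  refine good_of_masks (B := 27) masks18 ?_ ?_ ?_
  · decide +kernel
  · decide +kernel
  · decide +kernel

end Pool.Agent.Helper33.NMaxQ
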