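import Mathlib
import Pool.Agent.Helper99.NMax.Formula
import Pool.Agent.Helper33.NMaxQ.Bound
import Pool.Agent.Helper33.NMaxQ.Lower

/-!
# The value of `n(D,1,r)` for `D - 1` a prime power, `r ≥ D - 1`, and for `D ≤ 2`
-/

namespace Pool.Agent.Helper33.NMaxQ

open Pool.Agent.Helper99.NMax

lemma value_primePow {q r : ℕ} (hq : IsPrimePow q) (hr1 : 1 ≤ r) (hr : q ≤ r) :
    nMax (q + 1) r = F (q + 1) r := by
  have hq1 : 1 ≤ q := hq.pos
  refine le_antisymm (upper_bound _ _) ?_
  rcases Nat.eq_zero_or_pos ((r - 1) / (q + 1)) with h0 | hpos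
  · have h1 : r - 1 < q + 1 := by
      rcases Nat.div_eq_zero_iff.1 h0 with h1 | h1
      · omega
      · exact h1
    have h2 : (r - 1) % (q + 1) = r - 1 := Nat.mod_eq_of_lt h1
    exact main_ge hq1 hr1 (planeExists_primePow hq) (by omega)
  · have hs := split q r hr1
    have h2 : (r - 1) % (q + 1) < q + 1 := Nat.mod_lt _ (by omega)
    have h3 := F_eq (q := q) (a := (r - 1) / (q + 1)) (b := (r - 1) % (q + 1) + 1) (by omega)
      (by omega)
    rw [← hs] at h3
    rw [h3]
    have h4 := le_nMax (lower_dual hq hpos (β := (r - 1) % (q + 1) + 1) (by omega) (by omega))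
    rw [← hs] at h4
    exact h4

lemma value_one {r : ℕ} (hr : 1 ≤ r) : nMax 1 r = F 1 r := by
  refine le_antisymm (upper_bound _ _) ?_
  have h1 : Good 1 r r := by
    have : Nonempty (Fin r) := ⟨⟨0, by omega⟩⟩
    refine ⟨{Finset.univ}, ?_, ?_, ?_, ?_⟩
    · intro e he
      rw [Finset.mem_singleton] at he
      subst he
      exact Finset.univ_nonempty
    · intro x y _
      exact ⟨Finset.univ, by simp, by simp, by simp⟩
    · intro x
      exact le_trans (Finset.card_filter_le _ _) (by simp)
    · intro e he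
      rw [Finset.mem_singleton] at he
      subst he
      simp
  refine le_trans (le_of_eq ?_) (le_nMax h1)
  simp only [F]
  omega

lemma value_two {r : ℕ} (hr : 1 ≤ r) : nMax 2 r = F 2 r :=
  le_antisymm (upper_bound _ _) (main_ge le_rfl hr planeExists_one (by omega))

end Pool.Agent.Helper33.NMaxQ
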